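import Mathlib
import Pool.Agent.Q299.UP

set_option autoImplicit false

namespace Pool.Agent.Results.MP_5ff22d_lc.ProductsDiffer

open Pool.Agent.Q299.UP Filter

/-- `A` is upward closed for divisibility. -/
def UpClosed (A : Set ℕ) : Prop := ∀ a ∈ A, ∀ b, a ∣ b → b ∈ A

/-- The divisibility relation of ultrafilters. -/
def tdvd (F G : Ultrafilter ℕ) : Prop := ∀ A : Set ℕ, UpClosed A → A ∈ F → A ∈ G

/-- The equivalence associated with `tdvd`. -/
def teq (F G : Ultrafilter ℕ) : Prop := tdvd F G ∧ tdvd G F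

/-- the odd primes -/
noncomputable def p (i : ℕ) : ℕ := Nat.nth Nat.Prime (i + 1)

theorem p_prime (i : ℕ) : (p i).Prime := Nat.prime_nth_prime _

theorem p_strictMono : StrictMono p := fun _ _ h =>
  Nat.nth_strictMono Nat.infinite_setOfPred_prime (Nat.succ_lt_succ h)

theorem p_gt (i : ℕ) : 2 < p i := by
  have h : Nat.nth Nat.Prime 0 < Nat.nth Nat.Prime (i + 1) :=
    Nat.nth_strictMono Nat.infinite_setOfPred_prime (Nat.succ_pos i)
  rw [Nat.nth_prime_zero_eq_two] at h
  exact h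

theorem coprime_two (i : ℕ) : (p i).Coprime 2 := by
  rw [Nat.coprime_primes (p_prime i) Nat.prime_two]
  have := p_gt i
  omega

/-- the separating upward closed set -/
def A : Set ℕ := {n | ∃ q : ℕ, q.Prime ∧ q ≠ 2 ∧ q ∣ n ∧ 2 ^ q ∣ n}

theorem A_up : UpClosed A := by
  rintro a ⟨q, h1, h2, h3, h4⟩ b hb
  exact ⟨q, h1, h2, h3.trans hb, h4.trans hb⟩

/-- There are an ultrapower of `ℕ`, two nonstandard primes `x`, `y` with the same ultrafilter, and `z`
coprime to both, such that the ultrafilters of `x * z` and `y * z` are not equivalent. -/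
theorem result : ∃ (I : Type) (W : Ultrafilter I) (x y z : Star W),
    v x = v y ∧ teq (v x) (v y) ∧ ¬ teq (v (x * z)) (v (y * z)) ∧
    x.LiftPred Nat.Prime ∧ y.LiftPred Nat.Prime ∧ Filter.Germ.LiftRel Nat.Coprime x z ∧
    Filter.Germ.LiftRel Nat.Coprime y z := by
  let H : Ultrafilter ℕ := hyperfilter ℕ
  have hH : (H : Filter ℕ) ≤ atTop := by
    rw [← Nat.cofinite_eq_atTop]
    exact hyperfilter_le_cofinite
  have hxy : v (((fun i : ℕ × ℕ => p i.1) : ℕ × ℕ → ℕ) : Star (tensor H H)) =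
      v (((fun i : ℕ × ℕ => p i.2) : ℕ × ℕ → ℕ) : Star (tensor H H)) := by
    rw [v_coe, v_coe]
    rw [show (fun i : ℕ × ℕ => p i.1) = p ∘ Prod.fst from rfl,
      show (fun i : ℕ × ℕ => p i.2) = p ∘ Prod.snd from rfl, ← Ultrafilter.map_map,
      ← Ultrafilter.map_map, map_fst_tensor, map_snd_tensor]
  refine ⟨ℕ × ℕ, tensor H H, ((fun i => p i.1 : ℕ × ℕ → ℕ) : Star (tensor H H)),
    ((fun i => p i.2 : ℕ × ℕ → ℕ) : Star (tensor H H)),
    ((fun i => 2 ^ p i.1 : ℕ × ℕ → ℕ) : Star (tensor H H)), hxy, ?_, ?_, ?_, ?_, ?_, ?_⟩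
  · rw [hxy]
    exact ⟨fun _ _ h => h, fun _ _ h => h⟩
  · rintro ⟨h, -⟩
    have h1 := h A A_up (by
      rw [← Filter.Germ.coe_mul, mem_v]
      refine Filter.Eventually.of_forall fun i => ?_
      refine ⟨p i.1, p_prime _, ?_, dvd_mul_right _ _, dvd_mul_left _ _⟩
      have := p_gt i.1
      omega)
    rw [← Filter.Germ.coe_mul, mem_v] at h1
    have h2 : ∀ᶠ i in (tensor H H : Filter (ℕ × ℕ)), p i.2 * 2 ^ p i.1 ∈ A := h1
    have h3 : ∀ᶠ i in (tensor H H : Filter (ℕ × ℕ)), i.1 < i.2 := by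
      change ∀ᶠ m in (H : Filter ℕ), ∀ᶠ n in (H : Filter ℕ), m < n
      exact Filter.Eventually.of_forall fun m => hH (eventually_gt_atTop m)
    obtain ⟨i, ⟨q, hq1, hq2, hq3, hq4⟩, hi⟩ := (h2.and h3).exists
    have hlt : p i.1 < p i.2 := p_strictMono hi
    have hq5 : q ∣ p i.2 := by
      rcases (Nat.Prime.dvd_mul hq1).1 hq3 with h | h
      · exact h
      · have := hq1.dvd_of_dvd_pow h
        rw [Nat.prime_dvd_prime_iff_eq hq1 Nat.prime_two] at this
        exact absurd this hq2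
    rw [Nat.prime_dvd_prime_iff_eq hq1 (p_prime _)] at hq5
    rw [hq5] at hq4
    have h6 : 2 ^ p i.2 ∣ 2 ^ p i.1 := by
      refine Nat.Coprime.dvd_of_dvd_mul_left ?_ hq4
      exact (Nat.Coprime.pow_left _ (coprime_two _).symm)
    have h7 : p i.2 ≤ p i.1 := (Nat.pow_dvd_pow_iff_le_right (by norm_num)).1 h6
    omega
  · exact Filter.Eventually.of_forall fun i => p_prime _
  · exact Filter.Eventually.of_forall fun i => p_prime _
  · exact Filter.Eventually.of_forall fun i => Nat.Coprime.pow_right _ (coprime_two _)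
  · exact Filter.Eventually.of_forall fun i => Nat.Coprime.pow_right _ (coprime_two _)

end Pool.Agent.Results.MP_5ff22d_lc.ProductsDiffer
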